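import Pool.Agent.H286Z.GS.Main

set_option autoImplicit false

/-! A group that is Golod-Shafarevich in characteristic zero all of whose finite-index subgroups
have first Betti number at most `2`: the group `⟨x, y | [h, x, ..., x], [h, y, ..., y] (h ∈ F)⟩`,
where the lengths of the commutators grow fast along an enumeration of the free group `F`. -/

open Pool.Agent.H286Z.GS

theorem Pool.Agent.Results.MP_09d285_al.BoundedVirtualBetti.result :
    ∃ (G : Type) (_ : Group G), IsGSCharZero G ∧
      ∀ H : Subgroup G, H.FiniteIndex → b1 H ≤ 2 :=
  main
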